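import Pool.Agent.Helper33.MS.Goals
import Pool.Agent.Helper35.Boot.Turan

/-!
# MP_9c00c0_co, packet MS-P2, parts (a) and (e)
-/

set_option autoImplicit false

open Finset SimpleGraph Pool.Agent.Helper35.Boot Pool.Agent.Helper33.MS

namespace Pool.Agent.Helper23.MS

universe v

/-- Parts (b), (c), (d): a graph free of `F1` with many vertices of large degree. -/
def GoalBCD : Prop := ∀ (W : Type v) [Fintype W] (F1 : SimpleGraph W), (∃ a b, F1.Adj a b) →
  (∀ a b, F1.Adj a b → (F1.deleteEdges {s(a, b)}).Reachable a b) →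
  ∀ q j : ℕ, 1 ≤ q → Fintype.card W * q ≤ j →
    ∃ (G : SimpleGraph (Fin (2 ^ j))) (U : Finset (Fin (2 ^ j))),
      F1.Free G ∧ U.card ≤ 2 ^ (j - 1) ∧ ∀ v ∉ U, 2 ^ q - 1 ≤ (G.neighborSet v).ncard

theorem exists_min {W : Type v} [Fintype W] (F : SimpleGraph W) (h : ¬ F.IsAcyclic) :
    ∃ F1 : SimpleGraph W, F1 ≤ F ∧ (∃ a b, F1.Adj a b) ∧
      ∀ a b, F1.Adj a b → (F1.deleteEdges {s(a, b)}).Reachable a b := by
  classical
  have hfin : Set.Finite {F1 : SimpleGraph W | F1 ≤ F ∧ ¬ F1.IsAcyclic} := Set.toFinite _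
  obtain ⟨F1, hF1⟩ := hfin.exists_minimal ⟨F, le_refl F, h⟩
  have hm : F1 ≤ F ∧ ¬ F1.IsAcyclic := hF1.prop
  refine ⟨F1, hm.1, ?_, ?_⟩
  · by_contra hno
    push Not at hno
    apply hm.2
    intro v c hc
    have h3 := hc.three_le_length
    cases c with
    | nil => simp at h3
    | cons hadj p => exact hno _ _ hadj
  · intro a b hab
    by_contra hnr
    set F2 := F1.deleteEdges {s(a, b)} with hF2
    have hle : F2 ≤ F1 := deleteEdges_le _
    have hlt : ¬ F1 ≤ F2 := by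
      intro hc
      have := hc hab
      simp [hF2] at this
    have hac : F2.IsAcyclic := by
      by_contra hna
      exact hlt (hF1.le_of_le ⟨hle.trans hm.1, hna⟩ hle)
    have h4 := (isAcyclic_add_edge_iff_of_not_reachable a b hnr).2 hac
    apply hm.2
    have h5 : F2 ⊔ fromEdgeSet {s(a, b)} = F1 := by
      ext x y
      simp only [sup_adj, hF2, deleteEdges_adj, fromEdgeSet_adj, Set.mem_singleton_iff]
      constructor
      · rintro (⟨h1, _⟩ | ⟨h1, h2⟩)
        · exact h1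
        · rw [← mem_edgeSet, h1]
          exact hab
      · intro h1
        by_cases h2 : s(x, y) = s(a, b)
        · exact Or.inr ⟨h2, h1.ne⟩
        · exact Or.inl ⟨h1, h2⟩
    rw [edge, h5] at h4
    exact h4

open scoped Classical in
theorem P2of (hB : GoalBCD.{v}) : GoalP2.{v} := by
  intro W _ F hF q j hq hj
  obtain ⟨F1, hle, ⟨a, b, hab⟩, hr⟩ := exists_min F hF
  obtain ⟨G, U, hfree, hU, hdeg⟩ := hB W F1 ⟨a, b, hab⟩ hr q j hq hj
  have hj1 : 1 ≤ j := by
    have : 0 < Fintype.card W := Fintype.card_pos_iff.2 ⟨a⟩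
    calc 1 ≤ Fintype.card W * q := Nat.mul_pos this hq
      _ ≤ j := hj
  have hfree2 : F.Free G := by
    intro hc
    exact hfree ((IsContained.of_le hle).trans hc)
  have h1 := le_ex G hfree2
  have h2 := G.sum_degrees_eq_twice_card_edges
  have hd : ∀ v ∈ Uᶜ, 2 ^ q - 1 ≤ G.degree v := by
    intro v hv
    have := hdeg v (by simpa using hv)
    rwa [Set.ncard_eq_toFinset_card', ← neighborFinset_def, card_neighborFinset_eq_degree] at this
  have h3 : (Uᶜ).card * (2 ^ q - 1) ≤ ∑ v, G.degree v := by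
    calc (Uᶜ).card * (2 ^ q - 1) = ∑ v ∈ Uᶜ, (2 ^ q - 1) := by simp
      _ ≤ ∑ v ∈ Uᶜ, G.degree v := Finset.sum_le_sum hd
      _ ≤ ∑ v, G.degree v := Finset.sum_le_sum_of_subset (Finset.subset_univ _)
  have h4 : 2 ^ (j - 1) ≤ (Uᶜ).card := by
    rw [Finset.card_compl, Fintype.card_fin]
    have : 2 ^ j = 2 * 2 ^ (j - 1) := by
      rw [← pow_succ']
      congr 1
      omega
    omega
  have h5 : 2 ^ (q - 1) ≤ 2 ^ q - 1 := by
    have : 2 ^ q = 2 * 2 ^ (q - 1) := by
      rw [← pow_succ']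
      congr 1
      omega
    have := Nat.one_le_two_pow (n := q - 1)
    omega
  have h6 : 2 ^ (j - 1) * 2 ^ (q - 1) ≤ 2 * extremalNumber (2 ^ j) F := by
    calc 2 ^ (j - 1) * 2 ^ (q - 1) ≤ (Uᶜ).card * (2 ^ q - 1) := Nat.mul_le_mul h4 h5
      _ ≤ ∑ v, G.degree v := h3
      _ = 2 * #G.edgeFinset := by
        rw [h2]
      _ ≤ 2 * extremalNumber (2 ^ j) F := Nat.mul_le_mul_left 2 h1
  have h7 : 2 ^ j * 2 ^ q ≤ 8 * extremalNumber (2 ^ j) F := by
    have e1 : 2 ^ j = 2 * 2 ^ (j - 1) := by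
      rw [← pow_succ']
      congr 1
      omega
    have e2 : 2 ^ q = 2 * 2 ^ (q - 1) := by
      rw [← pow_succ']
      congr 1
      omega
    calc 2 ^ j * 2 ^ q = 4 * (2 ^ (j - 1) * 2 ^ (q - 1)) := by
          rw [e1, e2]
          ring
      _ ≤ 4 * (2 * extremalNumber (2 ^ j) F) := Nat.mul_le_mul_left 4 h6
      _ = 8 * extremalNumber (2 ^ j) F := by ring
  exact_mod_cast h7

end Pool.Agent.Helper23.MS
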